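import Pool.Agent.H37.CTL.Stmts

/-!
Row T61 of the board `ctl`: `SL_3(F) / C`, `C` central: the denominators divide `q (q ^ 2 - 1)`
-/

set_option autoImplicit false

namespace Pool.CND.T61H

open Polynomial

/-- lifting a `p`-subgroup through a central quotient of order prime to `p` -/
theorem lift_p {G : Type} [Group G] [Finite G] (p : ℕ) [hp : Fact p.Prime] (C : Subgroup G)
    [C.Normal] (hC : C ≤ Subgroup.center G) (hpC : ¬ p ∣ Nat.card C) (W : Subgroup (G ⧸ C))
    (n : ℕ) (hW : Nat.card W = p ^ n) : ∃ W₁ : Subgroup G, IsPGroup p W₁ ∧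
    W₁.map (QuotientGroup.mk' C) = W ∧ (∀ x ∈ W₁, QuotientGroup.mk' C x = 1 → x = 1) ∧
    (∀ x : G, QuotientGroup.mk' C x ∈ W → (∃ m : ℕ, x ^ p ^ m = 1) → x ∈ W₁) := by
  classical
  set π := QuotientGroup.mk' C with hπ
  set K : Subgroup G := W.comap π with hK
  obtain ⟨P⟩ : Nonempty (Sylow p K) := inferInstance
  let ψ : K →* W := (π.comp K.subtype).codRestrict W (fun x => x.2)
  have hψ : ∀ x : K, (ψ x : G ⧸ C) = π x := fun x => rfl
  have hsurj : Function.Surjective ψ := by
    rintro ⟨w, hw⟩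
    obtain ⟨x, rfl⟩ := QuotientGroup.mk'_surjective C w
    exact ⟨⟨x, hw⟩, rfl⟩
  have hmemC : ∀ x : K, x ∈ ψ.ker → (x : G) ∈ C := by
    intro x hx
    have h1 : ψ x = 1 := hx
    have h2 : π (x : G) = 1 := by
      rw [← hψ, h1]; rfl
    exact (QuotientGroup.eq_one_iff (x : G)).1 h2
  have hcen : ∀ x : K, x ∈ ψ.ker → ∀ y : K, y * x = x * y := by
    intro x hx y
    apply Subtype.ext
    exact Subgroup.mem_center_iff.1 (hC (hmemC x hx)) (y : G)
  have hidx : ψ.ker.index = p ^ n := by
    rw [Subgroup.index_ker, ← hW]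
    have : ψ.range = ⊤ := MonoidHom.range_eq_top.2 hsurj
    rw [this]
    exact Nat.card_congr Subgroup.topEquiv.toEquiv
  have hcop : ∀ m : ℕ, m ∣ p ^ n → m ∣ (P : Subgroup K).index → m = 1 := by
    intro m h1 h2
    have h3 : ¬ p ∣ (P : Subgroup K).index := P.not_dvd_index
    have h4 : Nat.Coprime (p ^ n) (P : Subgroup K).index :=
      Nat.Coprime.pow_left n ((Nat.Prime.coprime_iff_not_dvd hp.out).2 h3)
    exact Nat.eq_one_of_dvd_coprimes h4 h1 h2
  have hnorm : Subgroup.normalizer ((P : Subgroup K) : Set K) = ⊤ := by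
    rw [← Subgroup.index_eq_one]
    apply hcop
    · rw [← hidx]
      apply Subgroup.index_dvd_of_le
      intro x hx
      rw [Subgroup.mem_normalizer_iff]
      intro h
      have : x * h * x⁻¹ = h := by
        rw [← hcen x hx h]; group
      rw [this]
    · exact Subgroup.index_dvd_of_le Subgroup.le_normalizer
  have hPn : (P : Subgroup K).Normal := Subgroup.normalizer_eq_top_iff.1 hnorm
  have hsup : (P : Subgroup K) ⊔ ψ.ker = ⊤ := by
    rw [← Subgroup.index_eq_one]
    apply hcop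
    · rw [← hidx]; exact Subgroup.index_dvd_of_le le_sup_right
    · exact Subgroup.index_dvd_of_le le_sup_left
  have huniq := Sylow.unique_of_normal P hPn
  refine ⟨(P : Subgroup K).map K.subtype, ?_, ?_, ?_, ?_⟩
  · exact P.isPGroup'.map K.subtype
  · ext w
    constructor
    · rintro ⟨x, ⟨y, hy, rfl⟩, rfl⟩
      exact y.2
    · intro hw
      obtain ⟨x, hx⟩ := hsurj ⟨w, hw⟩
      have hx' : x ∈ (P : Subgroup K) ⊔ ψ.ker := by rw [hsup]; trivial
      rw [← SetLike.mem_coe, Subgroup.mul_normal] at hx'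
      obtain ⟨a, ha, b, hb, hab⟩ := hx'
      refine ⟨(a : G), ⟨a, ha, rfl⟩, ?_⟩
      have h1 : ψ x = ψ a := by
        rw [← hab]
        have : ψ b = 1 := hb
        simp [this]
      have h2 := congrArg (fun y : W => (y : G ⧸ C)) (hx.symm.trans h1)
      exact h2.symm
  · rintro x ⟨y, hy, rfl⟩ hx
    have h1 : (y : G) ∈ C := (QuotientGroup.eq_one_iff (y : G)).1 hx
    obtain ⟨m, hm⟩ := P.isPGroup' ⟨y, hy⟩
    have hm' : (y : G) ^ p ^ m = 1 := by
      have := congrArg (fun u : (P : Subgroup K) => ((u : K) : G)) hm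
      simpa using this
    have h2 : orderOf (y : G) ∣ p ^ m := orderOf_dvd_of_pow_eq_one hm'
    have h3 : orderOf (y : G) ∣ Nat.card C := by
      have := orderOf_dvd_natCard (⟨(y : G), h1⟩ : C)
      rwa [← Subgroup.orderOf_coe] at this
    have h4 : Nat.Coprime (p ^ m) (Nat.card C) :=
      Nat.Coprime.pow_left m ((Nat.Prime.coprime_iff_not_dvd hp.out).2 hpC)
    exact orderOf_eq_one_iff.1 (Nat.eq_one_of_dvd_coprimes h4 h2 h3)
  · rintro x hx ⟨m, hm⟩
    have h0 : orderOf (⟨x, hx⟩ : K) ∣ p ^ m :=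
      orderOf_dvd_of_pow_eq_one (Subtype.ext (by simpa using hm))
    obtain ⟨j, -, hj⟩ := (Nat.dvd_prime_pow hp.out).1 h0
    have h1 : IsPGroup p (Subgroup.zpowers (⟨x, hx⟩ : K)) := by
      apply IsPGroup.of_card (n := j)
      rw [Nat.card_zpowers, hj]
    obtain ⟨Q, hQ⟩ := h1.exists_le_sylow
    have h2 : Q = P := Subsingleton.elim _ _
    rw [h2] at hQ
    exact ⟨⟨x, hx⟩, hQ (Subgroup.mem_zpowers _), rfl⟩

/-- the centre of `SL_3(F)` has order prime to the characteristic -/
theorem card_center {F : Type} [Field F] [Finite F] (p : ℕ) [hp : Fact p.Prime] [CharP F p]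
    (C : Subgroup (Matrix.SpecialLinearGroup (Fin 3) F))
    (hC : C ≤ Subgroup.center (Matrix.SpecialLinearGroup (Fin 3) F)) : ¬ p ∣ Nat.card C := by
  intro h
  obtain ⟨x, hx⟩ := exists_prime_orderOf_dvd_card' p h
  have h1 : ((x : Matrix.SpecialLinearGroup (Fin 3) F)) ^ p = 1 := by
    have := pow_orderOf_eq_one x
    rw [hx] at this
    have h2 := congrArg (fun y : C => (y : Matrix.SpecialLinearGroup (Fin 3) F)) this
    simpa using h2
  obtain ⟨r, -, hr⟩ := Matrix.SpecialLinearGroup.mem_center_iff.1 (hC x.2)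
  have h3 : (Matrix.scalar (Fin 3) (r ^ p)) = 1 := by
    rw [map_pow, hr]
    have := congrArg (fun y : Matrix.SpecialLinearGroup (Fin 3) F => (y : Matrix (Fin 3) (Fin 3) F)) h1
    simpa using this
  have h4 : r ^ p = 1 := by
    have := congrFun (congrFun h3 0) 0
    simpa using this
  have h5 : (r - 1) ^ p = 0 := by
    rw [sub_pow_char, h4, one_pow, sub_self]
  have h6 : r = 1 := by
    have := pow_eq_zero_iff hp.out.ne_zero |>.1 h5
    exact sub_eq_zero.1 this
  have h7 : x = 1 := by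
    apply Subtype.ext
    apply Subtype.ext
    rw [← hr, h6, map_one]
    rfl
  rw [h7, orderOf_one] at hx
  exact hp.out.one_lt.ne hx

/-- a fixed vector in a quotient -/
theorem fixq {F V W : Type} [Field F] [Finite F] [AddCommGroup V] [Module F V] [Finite V]
    [Group W] [Finite W] (p : ℕ) [hp : Fact p.Prime] [CharP F p] (hW : IsPGroup p W)
    (ρ : W →* Module.End F V) (S : Submodule F V) (hS : ∀ w : W, ∀ x ∈ S, ρ w x ∈ S)
    (hne : S ≠ ⊤) : ∃ x : V, x ∉ S ∧ ∀ w : W, ρ w x - x ∈ S := by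
  let act : MulAction W (V ⧸ S) :=
    { smul := fun w x => S.mapQ S (ρ w) (hS w) x
      one_smul := by
        intro b
        obtain ⟨x, rfl⟩ := S.mkQ_surjective b
        show S.mapQ S (ρ 1) (hS 1) (S.mkQ x) = S.mkQ x
        simp
      mul_smul := by
        intro a b c
        obtain ⟨x, rfl⟩ := S.mkQ_surjective c
        show S.mapQ S (ρ (a * b)) (hS (a * b)) (S.mkQ x) =
          S.mapQ S (ρ a) (hS a) (S.mapQ S (ρ b) (hS b) (S.mkQ x))
        simp }
  have hnt : Nontrivial (V ⧸ S) := Submodule.Quotient.nontrivial_iff.2 hne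
  have hfin : Finite (V ⧸ S) := Finite.of_surjective _ S.mkQ_surjective
  have hcard : p ∣ Nat.card (V ⧸ S) := by
    obtain ⟨y, hy⟩ := exists_ne (0 : V ⧸ S)
    have h1 : addOrderOf y = p := by
      apply addOrderOf_eq_prime _ hy
      have : ((p : F)) • y = 0 := by rw [CharP.cast_eq_zero, zero_smul]
      rw [← this, Nat.cast_smul_eq_nsmul]
    rw [← h1]
    exact addOrderOf_dvd_natCard y
  have h0 : (0 : V ⧸ S) ∈ MulAction.fixedPoints W (V ⧸ S) := by
    intro w
    show S.mapQ S (ρ w) (hS w) 0 = 0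
    simp
  obtain ⟨b, hb, hb0⟩ := hW.exists_fixed_point_of_prime_dvd_card_of_fixed_point (V ⧸ S) hcard h0
  obtain ⟨x, rfl⟩ := S.mkQ_surjective b
  refine ⟨x, ?_, ?_⟩
  · intro hx
    apply hb0
    rw [Submodule.mkQ_apply, (Submodule.Quotient.mk_eq_zero S).2 hx]
  · intro w
    have h1 : S.mapQ S (ρ w) (hS w) (S.mkQ x) = S.mkQ x := hb w
    rw [Submodule.mkQ_apply, Submodule.mapQ_apply] at h1
    exact (Submodule.Quotient.eq S).1 h1

/-- polynomials of degree at most `2` -/
theorem dvd_quad {F : Type} [Field F] [Finite F] (D : F[X])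
    (hD : ∀ P : F[X], Irreducible P → P.natDegree ≤ 2 → P ∣ D) (n : ℕ) : ∀ χ : F[X], χ ≠ 0 →
    χ.natDegree ≤ 2 → χ.natDegree ≤ n → χ ∣ D ^ n := by
  induction n with
  | zero =>
    intro χ h0 _ h
    have : χ.natDegree = 0 := by omega
    rw [pow_zero]
    rw [Polynomial.natDegree_eq_zero] at this
    obtain ⟨c, rfl⟩ := this
    have hc : c ≠ 0 := by rintro rfl; simp at h0
    exact (Polynomial.isUnit_C.2 (isUnit_iff_ne_zero.2 hc)).dvd
  | succ n ih =>
    intro χ h0 h2 h
    by_cases hd : χ.natDegree ≤ n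
    · exact (ih χ h0 h2 hd).trans (pow_dvd_pow _ (Nat.le_succ n))
    · obtain ⟨P, hP, Q, rfl⟩ := Polynomial.exists_irreducible_of_natDegree_pos
        (f := χ) (by omega)
      have hQ0 : Q ≠ 0 := right_ne_zero_of_mul h0
      have hP0 : P ≠ 0 := left_ne_zero_of_mul h0
      have hPd := hP.natDegree_pos
      rw [Polynomial.natDegree_mul hP0 hQ0] at h2 h
      have h5 : Q ∣ D ^ n := ih Q hQ0 (by omega) (by omega)
      have h6 : P ∣ D := hD P hP (by omega)
      rw [pow_succ, mul_comm P Q]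
      exact mul_dvd_mul h5 h6

theorem dvd_irr {F : Type} [Field F] [Finite F] (P : F[X]) (hP : Irreducible P)
    (h : P.natDegree ≤ 2) : P ∣ (X ^ (Nat.card F) ^ 2 - X : F[X]) := by
  have h1 := hP.natDegree_pos
  have h2 : P.natDegree ∣ 2 := by
    have : P.natDegree = 1 ∨ P.natDegree = 2 := by omega
    rcases this with h | h
    · rw [h]; exact one_dvd _
    · rw [h]
  exact hP.natDegree_dvd_iff_dvd_X_pow_card_pow_sub_X.1 h2

/-- endomorphisms of spaces of dimension at most `2` -/
theorem quad_end {F M : Type} [Field F] [Finite F] [AddCommGroup M] [Module F M]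
    [FiniteDimensional F M] (hM : Module.finrank F M ≤ 2) (T : Module.End F M) :
    aeval T ((X ^ (Nat.card F) ^ 2 - X : F[X]) ^ 2) = 0 := by
  obtain ⟨Q, hQ⟩ := dvd_quad (X ^ (Nat.card F) ^ 2 - X : F[X]) dvd_irr 2 T.charpoly (LinearMap.charpoly_monic T).ne_zero
    (by rw [LinearMap.charpoly_natDegree]; exact hM) (by rw [LinearMap.charpoly_natDegree]; exact hM)
  rw [hQ, map_mul, LinearMap.aeval_self_charpoly, zero_mul]

theorem aeval_intertwine {F M N : Type} [Field F] [AddCommGroup M] [Module F M]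
    [AddCommGroup N] [Module F N] (ψ : M →ₗ[F] N) (T : Module.End F M) (U : Module.End F N)
    (h : ∀ x, ψ (T x) = U (ψ x)) (P : F[X]) (x : M) : ψ (aeval T P x) = aeval U P (ψ x) := by
  induction P using Polynomial.induction_on' with
  | add P Q hP hQ => simp [hP, hQ]
  | monomial n a =>
    have : ∀ n : ℕ, ψ ((T ^ n) x) = (U ^ n) (ψ x) := by
      intro n
      induction n with
      | zero => simp
      | succ n ih =>
        rw [pow_succ', pow_succ', Module.End.mul_apply, Module.End.mul_apply, h, ih]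
    simp [aeval_monomial, this]

/-- an element of order prime to `p` stabilising a proper subspace -/
theorem order_dvd {F : Type} [Field F] [Finite F] (p : ℕ) [hp : Fact p.Prime] [CharP F p]
    (h : Matrix.SpecialLinearGroup (Fin 3) F) (hh : ¬ p ∣ orderOf h)
    (ρ : Matrix.SpecialLinearGroup (Fin 3) F →* Module.End F (Fin 3 → F))
    (hρ : Function.Injective ρ)
    (Y : Submodule F (Fin 3 → F)) (hY : ∀ y ∈ Y, ρ h y ∈ Y) (hb : Y ≠ ⊥) (ht : Y ≠ ⊤) :
    h ^ ((Nat.card F) ^ 2 - 1) = 1 := by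
  set q := Nat.card F with hq
  set T : Module.End F (Fin 3 → F) := ρ h with hT
  set D : F[X] := X ^ q ^ 2 - X with hD
  have hV : Module.finrank F (Fin 3 → F) = 3 := by simp
  have h1 : 0 < Module.finrank F Y := by
    rw [Module.finrank_pos_iff]
    exact (Submodule.nontrivial_iff_ne_bot).2 hb
  have h2 : Module.finrank F Y < 3 := (Submodule.finrank_lt ht).trans_eq hV
  have h3 : Module.finrank F ((Fin 3 → F) ⧸ Y) ≤ 2 := by
    have := Submodule.finrank_quotient_add_finrank Y
    omega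
  have e1 : ∀ y ∈ Y, aeval T (D ^ 2) y = 0 := by
    intro y hy
    have := aeval_intertwine Y.subtype (T.restrict hY) T (fun x => rfl) (D ^ 2) ⟨y, hy⟩
    rw [quad_end (by omega) (T.restrict hY)] at this
    simpa using this.symm
  have e2 : ∀ x, aeval T (D ^ 2) x ∈ Y := by
    intro x
    have := aeval_intertwine Y.mkQ T (Y.mapQ Y T hY) (fun x => rfl) (D ^ 2) x
    rw [quad_end h3 (Y.mapQ Y T hY)] at this
    simpa using this
  have e3 : aeval T (D ^ 4) = 0 := by
    have : (D ^ 4) = D ^ 2 * D ^ 2 := by ring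
    rw [this, map_mul]
    ext1 x
    exact LinearMap.ext (fun c => e1 _ (e2 _))
  have e4 : aeval T (D ^ p ^ 2) = 0 := by
    have h4 : 4 ≤ p ^ 2 := by
      have := hp.out.two_le
      nlinarith
    obtain ⟨m, hm⟩ := Nat.exists_eq_add_of_le h4
    rw [hm, pow_add, map_mul, e3, zero_mul]
  have e5 : D ^ p ^ 2 = X ^ (q ^ 2 * p ^ 2) - X ^ p ^ 2 := by
    rw [hD, sub_pow_char_pow, ← pow_mul]
  rw [e5] at e4
  simp only [map_sub, map_pow, aeval_X] at e4
  have e6 : ρ (h ^ (q ^ 2 * p ^ 2)) = ρ (h ^ p ^ 2) := by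
    rw [map_pow, map_pow]
    exact sub_eq_zero.1 e4
  have e7 := hρ e6
  have hq1 : 1 ≤ q ^ 2 := Nat.one_le_pow _ _ Nat.card_pos
  have e8 : h ^ ((q ^ 2 - 1) * p ^ 2) = 1 := by
    have : q ^ 2 * p ^ 2 = (q ^ 2 - 1) * p ^ 2 + p ^ 2 := by
      conv_lhs => rw [← Nat.sub_add_cancel hq1]
      ring
    rw [this, pow_add] at e7
    exact mul_eq_right.1 e7
  have e9 := orderOf_dvd_of_pow_eq_one e8
  have e10 : Nat.Coprime (orderOf h) (p ^ 2) :=
    Nat.Coprime.pow_right 2 (((Nat.Prime.coprime_iff_not_dvd hp.out).2 hh).symm)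
  exact orderOf_dvd_iff_pow_eq_one.1 (e10.dvd_of_dvd_mul_right e9)

theorem comm_closure {G : Type} [Group G] (S : Set G) (h : ∀ x ∈ S, ∀ y ∈ S, x * y = y * x) :
    ∀ x ∈ Subgroup.closure S, ∀ y ∈ Subgroup.closure S, x * y = y * x := by
  have h1 : Subgroup.closure S ≤ Subgroup.centralizer S := by
    rw [Subgroup.closure_le]
    intro x hx
    rw [SetLike.mem_coe, Subgroup.mem_centralizer_iff]
    intro y hy
    exact h y hy x hx
  have h2 : Subgroup.closure S ≤ Subgroup.centralizer (Subgroup.closure S : Set G) := by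
    rw [Subgroup.closure_le]
    intro x hx
    rw [SetLike.mem_coe, Subgroup.mem_centralizer_iff]
    intro y hy
    exact (Subgroup.mem_centralizer_iff.1 (h1 hy) x hx).symm
  intro x hx y hy
  exact Subgroup.mem_centralizer_iff.1 (h2 hy) x hx

theorem struct3 {F G : Type} [Field F] [Finite F] [Group G] [Finite G] (p f : ℕ)
    [hp : Fact p.Prime] [CharP F p] (hq : Nat.card F = p ^ f)
    (ρ : G →* Module.End F (Fin 3 → F)) (hρ : Function.Injective ρ)
    (W : Subgroup G) (hW : IsPGroup p W) (z : G) (hz : z ∈ W) (hc : ∀ w ∈ W, w * z = z * w) :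
    ∃ (H : Subgroup G) (d : ℕ), H ≤ W ∧ z ∈ H ∧ (∀ x ∈ H, ∀ y ∈ H, x * y = y * x) ∧ d ≤ f ∧
      Nat.card W = p ^ d * Nat.card H := by
  classical
  set σ : W →* Module.End F (Fin 3 → F) := ρ.comp W.subtype with hσ
  have hV : Module.finrank F (Fin 3 → F) = 3 := by simp
  obtain ⟨v, hv, hvf⟩ := fixq p hW σ ⊥
    (by intro w x hx; rw [Submodule.mem_bot] at hx ⊢; rw [hx, map_zero]) bot_ne_top
  have hvf' : ∀ w : W, σ w v = v := fun w => by
    have := hvf w
    rw [Submodule.mem_bot] at this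
    exact sub_eq_zero.1 this
  set S1 : Submodule F (Fin 3 → F) := Submodule.span F {v} with hS1
  have hS1s : ∀ w : W, ∀ x ∈ S1, σ w x ∈ S1 := by
    intro w x hx
    obtain ⟨c, rfl⟩ := Submodule.mem_span_singleton.1 hx
    rw [map_smul, hvf']
    exact hx
  have hS1r : Module.finrank F S1 ≤ 1 := by
    have := finrank_span_le_card (R := F) ({v} : Set (Fin 3 → F))
    simpa using this
  have hS1t : S1 ≠ ⊤ := by
    intro h
    rw [h, finrank_top, hV] at hS1r
    omega
  obtain ⟨k, hk, hkf⟩ := fixq p hW σ S1 hS1s hS1t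
  set S2 : Submodule F (Fin 3 → F) := Submodule.span F {v, k} with hS2
  have hvS2 : v ∈ S2 := Submodule.subset_span (by simp)
  have hkS2 : k ∈ S2 := Submodule.subset_span (by simp)
  have h12 : S1 ≤ S2 := Submodule.span_mono (by simp)
  have hS2s : ∀ w : W, ∀ x ∈ S2, σ w x ∈ S2 := by
    intro w
    have : S2 ≤ S2.comap (σ w) := by
      rw [hS2, Submodule.span_le]
      rintro x (rfl | rfl)
      · show σ w x ∈ S2
        rw [hvf']; exact hvS2
      · show σ w x ∈ S2
        have : σ w x = (σ w x - x) + x := by abel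
        rw [this]
        exact S2.add_mem (h12 (hkf w)) hkS2
    exact this
  have hS2r : Module.finrank F S2 ≤ 2 := by
    have h1 := finrank_span_le_card (R := F) ({v, k} : Set (Fin 3 → F))
    have h2 : ({v, k} : Set (Fin 3 → F)).toFinset.card ≤ 2 := by
      rw [Set.toFinset_insert, Set.toFinset_singleton]
      exact Finset.card_le_two
    exact h1.trans h2
  have hS2t : S2 ≠ ⊤ := by
    intro h
    rw [h, finrank_top, hV] at hS2r
    omega
  obtain ⟨x₀, hx₀, hx₀f⟩ := fixq p hW σ S2 hS2s hS2t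
  have hS3 : S2 ⊔ Submodule.span F {x₀} = ⊤ := by
    have a0 : (⊥ : Submodule F (Fin 3 → F)) < S1 := by
      rw [bot_lt_iff_ne_bot]
      intro h
      apply hv
      rw [← h]
      exact Submodule.mem_span_singleton_self v
    have a1 : S1 < S2 := by
      refine lt_of_le_of_ne h12 ?_
      intro h
      exact hk (h ▸ hkS2)
    have a2 : S2 < S2 ⊔ Submodule.span F {x₀} := by
      refine lt_of_le_of_ne le_sup_left ?_
      intro h
      apply hx₀
      rw [h]
      exact Submodule.mem_sup_right (Submodule.mem_span_singleton_self x₀)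
    have b0 := Submodule.finrank_lt_finrank_of_lt a0
    have b1 := Submodule.finrank_lt_finrank_of_lt a1
    have b2 := Submodule.finrank_lt_finrank_of_lt a2
    have b3 := Submodule.finrank_le (S2 ⊔ Submodule.span F {x₀})
    apply Submodule.eq_top_of_finrank_eq
    omega
  let act : MulAction W (Fin 3 → F) := MulAction.compHom _ σ
  have hact : ∀ (w : W) (x : Fin 3 → F), w • x = σ w x := fun w x => rfl
  set St : Subgroup W := MulAction.stabilizer W k with hSt
  have hStm : ∀ w : W, w ∈ St ↔ σ w k = k := fun w => MulAction.mem_stabilizer_iff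
  set A : Subgroup G := St.map W.subtype with hA
  have hAW : A ≤ W := by
    rintro x ⟨y, -, rfl⟩
    exact y.2
  have hA1 : ∀ a ∈ A, ∀ s ∈ S2, ρ a s = s := by
    rintro _ ⟨y, hy, rfl⟩ s hs
    have : S2 ≤ LinearMap.ker (σ y - 1) := by
      rw [hS2, Submodule.span_le]
      rintro x (rfl | rfl)
      · show (σ y - 1) x = 0
        rw [LinearMap.sub_apply, hvf', Module.End.one_apply, sub_self]
      · show (σ y - 1) x = 0
        rw [LinearMap.sub_apply, (hStm y).1 hy, Module.End.one_apply, sub_self]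
    have h2 := this hs
    rw [LinearMap.mem_ker, LinearMap.sub_apply, Module.End.one_apply] at h2
    exact sub_eq_zero.1 h2
  have hA2 : ∀ a ∈ W, ∀ x, ρ a x - x ∈ S2 := by
    intro a ha
    have h1 : (⊤ : Submodule F (Fin 3 → F)) ≤ S2.comap (ρ a - 1) := by
      rw [← hS3]
      apply sup_le
      · intro s hs
        show (ρ a - 1) s ∈ S2
        rw [LinearMap.sub_apply, Module.End.one_apply]
        exact S2.sub_mem (hS2s ⟨a, ha⟩ s hs) hs
      · rw [Submodule.span_le]
        rintro x rfl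
        show (ρ a - 1) x ∈ S2
        rw [LinearMap.sub_apply, Module.End.one_apply]
        exact hx₀f ⟨a, ha⟩
    intro x
    have := h1 (Submodule.mem_top (x := x))
    exact this
  have hA3 : ∀ a ∈ A, ∀ b ∈ A, a * b = b * a := by
    intro a ha b hb
    apply hρ
    have key : ∀ a ∈ A, ∀ b ∈ A, ∀ x, ρ (a * b) x = ρ a x + ρ b x - x := by
      intro a ha b hb x
      have h1 := hA1 a ha _ (hA2 b (hAW hb) x)
      rw [map_mul, Module.End.mul_apply]
      rw [map_sub] at h1
      have h2 : ρ a (ρ b x) = (ρ a (ρ b x) - ρ a x) + ρ a x := by abel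
      rw [h2, h1]
      abel
    apply LinearMap.ext
    intro x
    rw [key a ha b hb, key b hb a ha]
    abel
  set H : Subgroup G := Subgroup.closure (insert z (A : Set G)) with hH
  have hHW : H ≤ W := by
    rw [hH, Subgroup.closure_le]
    rintro x (rfl | hx)
    · exact hz
    · exact hAW hx
  have hzH : z ∈ H := Subgroup.subset_closure (Set.mem_insert _ _)
  have hAH : A ≤ H := fun x hx => Subgroup.subset_closure (Set.mem_insert_of_mem _ hx)
  have hHc : ∀ x ∈ H, ∀ y ∈ H, x * y = y * x := by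
    apply comm_closure
    rintro x (rfl | hx) y (rfl | hy)
    · rfl
    · exact (hc y (hAW hy)).symm
    · exact hc x (hAW hx)
    · exact hA3 x hx y hy
  obtain ⟨n, hn⟩ := IsPGroup.iff_card.1 hW
  have hi1 : (H.subgroupOf W).index ∣ p ^ n := by
    rw [← hn]
    exact Subgroup.index_dvd_card _
  obtain ⟨d, -, hd⟩ := (Nat.dvd_prime_pow hp.out).1 hi1
  have hi2 : (H.subgroupOf W).index ∣ St.index := by
    apply Subgroup.index_dvd_of_le
    intro x hx
    rw [Subgroup.mem_subgroupOf]
    exact hAH ⟨x, hx, rfl⟩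
  have hi3 : St.index ≤ p ^ f := by
    rw [hSt, MulAction.index_stabilizer, ← hq]
    have h1 : MulAction.orbit W k ⊆ (fun c : F => k + c • v) '' Set.univ := by
      rintro _ ⟨w, rfl⟩
      obtain ⟨c, hc⟩ := Submodule.mem_span_singleton.1 (hkf w)
      refine ⟨c, trivial, ?_⟩
      show k + c • v = σ w k
      rw [hc]
      abel
    calc (MulAction.orbit W k).ncard ≤ ((fun c : F => k + c • v) '' Set.univ).ncard :=
          Set.ncard_le_ncard h1 (Set.toFinite _)
      _ ≤ (Set.univ : Set F).ncard := Set.ncard_image_le (Set.toFinite _)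
      _ = Nat.card F := Set.ncard_univ F
  have hi4 : d ≤ f := by
    have h1 : p ^ d ≤ p ^ f := by
      rw [← hd]
      refine (Nat.le_of_dvd ?_ hi2).trans hi3
      exact Nat.pos_of_ne_zero Subgroup.index_ne_zero_of_finite
    exact (Nat.pow_le_pow_iff_right hp.out.one_lt).1 h1
  refine ⟨H, d, hHW, hzH, hHc, hi4, ?_⟩
  rw [← (H.subgroupOf W).card_mul_index, hd, mul_comm]
  congr 1
  exact Nat.card_congr (Subgroup.subgroupOfEquivOfLe hHW).toEquiv

theorem card_map {G G' : Type} [Group G] [Group G'] (π : G →* G') (K : Subgroup G)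
    (h : ∀ x ∈ K, π x = 1 → x = 1) : Nat.card (K.map π) = Nat.card K := by
  symm
  apply Nat.card_congr
  refine Equiv.ofBijective (fun x : K => (⟨π x, ⟨x, x.2, rfl⟩⟩ : K.map π)) ⟨?_, ?_⟩
  · intro x y hxy
    have h1 : π (x : G) = π y := congrArg (fun u : K.map π => (u : G')) hxy
    have h2 : (x : G) * (y : G)⁻¹ = 1 := by
      apply h _ (K.mul_mem x.2 (K.inv_mem y.2))
      rw [map_mul, map_inv, h1, mul_inv_cancel]
    exact Subtype.ext (mul_inv_eq_one.1 h2)
  · rintro ⟨_, ⟨x, hx, rfl⟩⟩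
    exact ⟨⟨x, hx⟩, rfl⟩

/-- the representation -/
noncomputable def rho (F : Type) [Field F] :
    Matrix.SpecialLinearGroup (Fin 3) F →* Module.End F (Fin 3 → F) where
  toFun g := Matrix.toLin' g.1
  map_one' := by
    show Matrix.toLin' (1 : Matrix (Fin 3) (Fin 3) F) = 1
    rw [Matrix.toLin'_one]; rfl
  map_mul' a b := by
    show Matrix.toLin' (a.1 * b.1) = _
    rw [Matrix.toLin'_mul]; rfl

theorem rho_inj (F : Type) [Field F] : Function.Injective (rho F) := by
  intro a b h
  exact Subtype.ext (Matrix.toLin'.injective h)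

end Pool.CND.T61H

namespace Pool.CND

open Pool.CND.T61H

theorem t61_thm (h1 : S_GDW) : S_T61 := by
  intro p k F _ _ _ f q hp hchar hf hq hcard C _ hC
  have hpF : Fact p.Prime := ⟨hp⟩
  have hF : Finite F := by
    apply Nat.finite_of_card_ne_zero
    rw [hcard, hq]
    exact pow_ne_zero _ hp.ne_zero
  have hCF : CharP F p := by
    let _ := Fintype.ofFinite F
    apply charP_of_card_eq_prime_pow (f := f)
    rw [Fintype.card_eq_nat_card, hcard, hq]
  have hM : Finite (Matrix (Fin 3) (Fin 3) F) := inferInstanceAs (Finite (Fin 3 → Fin 3 → F))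
  have hG : Finite (Matrix.SpecialLinearGroup (Fin 3) F) :=
    Finite.of_injective (fun g => g.1) (fun a b h => Subtype.ext h)
  have hq2 : 2 ≤ q := by
    rw [hq]
    calc 2 ≤ p := hp.two_le
      _ = p ^ 1 := (pow_one p).symm
      _ ≤ p ^ f := Nat.pow_le_pow_right hp.pos hf
  have hr : 1 ≤ q ^ 2 - 1 := by
    have : 2 ^ 2 ≤ q ^ 2 := Nat.pow_le_pow_left hq2 2
    omega
  have hpC := card_center p C hC
  have key := h1 p k (Matrix.SpecialLinearGroup (Fin 3) F ⧸ C) f (q ^ 2 - 1) hp hchar hr ?_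
  · rw [← hq] at key
    exact key.2
  rintro W ⟨n, hn⟩ -
  obtain ⟨W₁, hP, hmap, hinj, hall⟩ := lift_p p C hC hpC W n hn
  set π := QuotientGroup.mk' C with hπ
  have hW1 : ∀ x ∈ W₁, π x ∈ W := fun x hx => hmap ▸ ⟨x, hx, rfl⟩
  constructor
  · intro z hzW hz1 hzp hzc
    rw [← hmap] at hzW
    obtain ⟨z₁, hz₁, rfl⟩ := hzW
    have hc1 : ∀ w ∈ W₁, w * z₁ = z₁ * w := by
      intro w hw
      have h2 := hinj (w * z₁ * (z₁ * w)⁻¹)
        (W₁.mul_mem (W₁.mul_mem hw hz₁) (W₁.inv_mem (W₁.mul_mem hz₁ hw)))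
        (by rw [map_mul, map_inv, map_mul, map_mul, hzc (π w) (hW1 w hw), mul_inv_cancel])
      exact mul_inv_eq_one.1 h2
    obtain ⟨H, d, hHW, hzH, hab, hd, hcd⟩ := struct3 p f (hcard.trans hq) (rho F) (rho_inj F)
      W₁ hP z₁ hz₁ hc1
    refine ⟨H.map π, d, ?_, ⟨z₁, hzH, rfl⟩, ⟨⊥, bot_le, ?_, ?_, Or.inl ?_⟩, hd, ?_⟩
    · rintro _ ⟨x, hx, rfl⟩
      exact hW1 x (hHW hx)
    · intro h _ x hx
      rw [Subgroup.mem_bot] at hx ⊢
      rw [hx, mul_one, mul_inv_cancel]
    · rw [Subgroup.mem_bot]; exact hz1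
    · rintro _ ⟨x, hx, rfl⟩ _ ⟨y, hy, rfl⟩
      rw [Subgroup.mem_bot, ← map_mul, ← hab x hx y hy, map_mul]
      group
    · rw [← hmap, card_map π W₁ hinj, card_map π H (fun x hx => hinj x (hHW hx)), hcd]
  · intro g C' hg hgW hC'W hC'b _ _ _ _ x _
    obtain ⟨h, rfl⟩ := QuotientGroup.mk'_surjective C g
    have hh : ¬ p ∣ orderOf h := by
      intro hd
      have h2 : h ^ orderOf (π h) ∈ C := by
        rw [← QuotientGroup.eq_one_iff]
        show π (h ^ orderOf (π h)) = 1
        rw [map_pow, pow_orderOf_eq_one]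
      have h3 : h ^ (orderOf (π h) * Nat.card C) = 1 := by
        rw [pow_mul]
        have : (⟨_, h2⟩ : C) ^ Nat.card C = 1 := pow_card_eq_one'
        exact congrArg (fun u : C => (u : Matrix.SpecialLinearGroup (Fin 3) F)) this
      have h4 := hd.trans (orderOf_dvd_of_pow_eq_one h3)
      rcases hp.dvd_mul.1 h4 with h5 | h5
      · exact hg h5
      · exact hpC h5
    have hn1 : ∀ w ∈ W₁, h * w * h⁻¹ ∈ W₁ := by
      intro w hw
      apply hall
      · rw [map_mul, map_mul, map_inv]
        exact hgW _ (hW1 w hw)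
      · obtain ⟨m, hm⟩ := hP ⟨w, hw⟩
        refine ⟨m, ?_⟩
        have hm' : w ^ p ^ m = 1 :=
          congrArg (fun u : W₁ => (u : Matrix.SpecialLinearGroup (Fin 3) F)) hm
        rw [conj_pow, hm', mul_one, mul_inv_cancel]
    have hn2 : ∀ j : ℕ, ∀ w ∈ W₁, h ^ j * w * (h ^ j)⁻¹ ∈ W₁ := by
      intro j
      induction j with
      | zero => intro w hw; simpa using hw
      | succ j ih =>
        intro w hw
        have := hn1 _ (ih w hw)
        have e : h ^ (j + 1) * w * (h ^ (j + 1))⁻¹ = h * (h ^ j * w * (h ^ j)⁻¹) * h⁻¹ := by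
          rw [pow_succ']; group
        rw [e]; exact this
    have hn3 : ∀ w ∈ W₁, h⁻¹ * w * h ∈ W₁ := by
      intro w hw
      have h2 := hn2 (orderOf h - 1) w hw
      have h3 : h ^ (orderOf h - 1) = h⁻¹ := by
        apply eq_inv_of_mul_eq_one_left
        rw [← pow_succ, Nat.sub_add_cancel (orderOf_pos h), pow_orderOf_eq_one]
      rw [h3, inv_inv] at h2
      exact h2
    let Y : Submodule F (Fin 3 → F) :=
      { carrier := {v | ∀ w ∈ W₁, rho F w v = v}
        add_mem' := by
          intro a b ha hb w hw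
          rw [map_add, ha w hw, hb w hw]
        zero_mem' := by
          intro w hw
          rw [map_zero]
        smul_mem' := by
          intro c a ha w hw
          rw [map_smul, ha w hw] }
    have hYm : ∀ v, v ∈ Y ↔ ∀ w ∈ W₁, rho F w v = v := fun v => Iff.rfl
    have hY1 : ∀ y ∈ Y, rho F h y ∈ Y := by
      intro y hy
      rw [hYm]
      intro w hw
      have h2 := (hYm y).1 hy _ (hn3 w hw)
      have h3 : rho F w (rho F h y) = rho F h (rho F (h⁻¹ * w * h) y) := by
        rw [← Module.End.mul_apply, ← Module.End.mul_apply, ← map_mul, ← map_mul]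
        congr 2
        group
      rw [h3, h2]
    have hY2 : Y ≠ ⊥ := by
      obtain ⟨v, hv, hvf⟩ := fixq p hP ((rho F).comp W₁.subtype) ⊥
        (by intro w x hx; rw [Submodule.mem_bot] at hx ⊢; rw [hx, map_zero]) bot_ne_top
      intro h2
      apply hv
      rw [← h2, hYm]
      intro w hw
      have := hvf ⟨w, hw⟩
      rw [Submodule.mem_bot] at this
      exact sub_eq_zero.1 this
    have hY3 : Y ≠ ⊤ := by
      intro h2
      apply hC'b
      rw [eq_bot_iff]
      intro c hc
      have h3 := hC'W hc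
      rw [← hmap] at h3
      obtain ⟨w, hw, rfl⟩ := h3
      have h4 : w = 1 := by
        apply rho_inj F
        rw [map_one]
        apply LinearMap.ext
        intro v
        have : v ∈ Y := by rw [h2]; trivial
        exact this w hw
      rw [h4, map_one]
      exact Subgroup.one_mem _
    have h5 := order_dvd p h hh (rho F) (rho_inj F) Y hY1 hY2 hY3
    rw [hcard] at h5
    rw [← map_pow, h5, map_one, one_mul, mul_one]

end Pool.CND
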